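import Pool.Agent.Q289.BG.Stm

set_option autoImplicit false

namespace Q65.BG

open MeasureTheory Set Filter
open Pool.Agent.W695.KH (Eu EV VV)
open Q289.BG Q289.OP

theorem cc_eq (h : 0 < cc ((Icc (0 : ℝ) 1).indicator fun _ => (1 : ℝ))) :
    cc ((Icc (0 : ℝ) 1).indicator fun _ => (1 : ℝ)) = 1 := by
  have hI : ∫ y, (Icc (0 : ℝ) 1).indicator (fun _ => (1 : ℝ)) y = 1 := by
    rw [integral_indicator measurableSet_Icc]
    simp
  unfold cc at h ⊢
  rw [hI] at h ⊢
  set q := Pool.Agent.Q73.KL.LC1.Qf ((Icc (0 : ℝ) 1).indicator fun _ => (1 : ℝ)) (1 / 2) with hq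
  by_cases hm : q ∈ Icc (0 : ℝ) 1
  · rw [indicator_of_mem hm]
    norm_num
  · rw [indicator_of_notMem hm] at h
    norm_num at h

theorem poo : S_POO := by
  intro ι _ _ f hf
  have ht := Q289.OP.tS
  obtain ⟨hK, hc, hi, he, hLC⟩ := Q237.OP.Ord.ord ι 0 1 one_pos
  have hpos : 0 < volume (OPo ι 0 1) :=
    lt_of_lt_of_le (isOpen_interior.measure_pos volume hi) (measure_mono interior_subset)
  obtain ⟨h1, h2, h3⟩ := Q237.OP.Lc1.onedlc _ hLC
  change 0 < cc _ at h2
  obtain ⟨hp, h4⟩ := ht ι _ _ h1 h2 h3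
  have h5 := h4 f hf
  rw [he] at hp h5
  change IsProbabilityMeasure ((volume (OPo ι 0 1))⁻¹ • volume.restrict (OPo ι 0 1)) at hp
  change ProbabilityTheory.evariance f ((volume (OPo ι 0 1))⁻¹ • volume.restrict (OPo ι 0 1)) ≤
    ENNReal.ofReal (cc ((Icc 0 1).indicator fun _ => (1 : ℝ))) *
      ∫⁻ x, ENNReal.ofReal (‖fderiv ℝ f x‖ ^ 2) ∂((volume (OPo ι 0 1))⁻¹ •
        volume.restrict (OPo ι 0 1)) at h5
  rw [cc_eq h2] at h5
  set μ := (volume (OPo ι 0 1))⁻¹ • volume.restrict (OPo ι 0 1) with hμ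
  have hint : ∀ g : EuclideanSpace ℝ ι → ℝ, ∫ x, g x ∂μ = EV (OPo ι 0 1) g := by
    intro g
    rw [hμ, integral_smul_measure]
    unfold EV
    rw [ENNReal.toReal_inv, smul_eq_mul, inv_mul_eq_div]
  have hae : ∀ᵐ x ∂μ, x ∈ OPo ι 0 1 := by
    rw [hμ]
    refine Measure.ae_smul_measure ?_ _
    exact ae_restrict_mem hK.measurableSet
  obtain ⟨M', hM'⟩ := hK.exists_bound_of_continuousOn (f := f) hf.continuous.continuousOn
  have hL2 : MemLp f 2 μ := by
    refine MemLp.of_bound hf.continuous.aestronglyMeasurable M' ?_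
    filter_upwards [hae] with x hx using hM' x hx
  obtain ⟨M, hM⟩ := hK.exists_bound_of_continuousOn (f := fun x => ‖fderiv ℝ f x‖ ^ 2)
    ((hf.continuous_fderiv (by norm_num)).norm.pow 2).continuousOn
  have hgi : Integrable (fun x => ‖fderiv ℝ f x‖ ^ 2) μ := by
    refine Integrable.of_bound
      ((hf.continuous_fderiv (by norm_num)).norm.pow 2).aestronglyMeasurable M ?_
    filter_upwards [hae] with x hx using hM x hx
  rw [← ofReal_integral_eq_lintegral_ofReal hgi (Eventually.of_forall fun x => by positivity),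
    ← ENNReal.ofReal_mul zero_le_one, ← hL2.ofReal_variance_eq] at h5
  have h6 := (ENNReal.ofReal_le_ofReal_iff (mul_nonneg zero_le_one
    (integral_nonneg fun x => by positivity))).1 h5
  rw [ProbabilityTheory.variance_eq_sub hL2] at h6
  have e1 : ∫ x, (f ^ 2) x ∂μ = EV (OPo ι 0 1) fun x => f x ^ 2 := by
    rw [← hint]
    rfl
  rw [e1, hint, hint] at h6
  exact h6

end Q65.BG
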