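import Pool.Agent.Q289.BG.Stm

set_option autoImplicit false

namespace Q65.BG

open MeasureTheory Set
open Pool.Agent.W695.KH (Eu EV VV)
open Q289.BG

variable {ι : Type} [Fintype ι]

open Classical in
/-- the linear part of `fl` -/
noncomputable def flL (c : Set ι) : Eu ι ≃ₗᵢ[ℝ] Eu ι :=
  LinearIsometryEquiv.piLpCongrRight 2 fun i => if i ∈ c then LinearIsometryEquiv.neg ℝ else
    LinearIsometryEquiv.refl ℝ ℝ

open Classical in
noncomputable def flb (c : Set ι) : Eu ι := WithLp.toLp 2 fun i => if i ∈ c then 1 else 0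

theorem fl_eq (c : Set ι) (x : Eu ι) : fl c x = flL c x + flb c := by
  ext i
  by_cases h : i ∈ c
  · simp [fl, flL, flb, h]; ring
  · simp [fl, flL, flb, h]

theorem hasFDerivAt_fl (c : Set ι) (x : Eu ι) :
    HasFDerivAt (fl c) ((flL c).toLinearIsometry.toContinuousLinearMap : Eu ι →L[ℝ] Eu ι) x := by
  have h : fl c = fun x => (flL c).toLinearIsometry.toContinuousLinearMap x + flb c := by
    funext y; exact fl_eq c y
  rw [h]
  exact ((flL c).toLinearIsometry.toContinuousLinearMap.hasFDerivAt).add_const _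

theorem contDiff_fl (c : Set ι) : ContDiff ℝ 1 (fl c) := by
  have h : fl c = fun x => (flL c).toLinearIsometry.toContinuousLinearMap x + flb c := by
    funext y; exact fl_eq c y
  rw [h]
  exact (ContinuousLinearMap.contDiff _).add contDiff_const

theorem norm_fderiv_fl (c : Set ι) {f : Eu ι → ℝ} (hf : ContDiff ℝ 1 f) (x : Eu ι) :
    ‖fderiv ℝ (fun x => f (fl c x)) x‖ = ‖fderiv ℝ f (fl c x)‖ := by
  have h1 : HasFDerivAt f (fderiv ℝ f (fl c x)) (fl c x) :=
    (hf.differentiable (by norm_num) _).hasFDerivAt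
  have h2 := h1.comp x (hasFDerivAt_fl c x)
  have h3 : fderiv ℝ (fun x => f (fl c x)) x =
      (fderiv ℝ f (fl c x)).comp (flL c).toLinearIsometry.toContinuousLinearMap := h2.fderiv
  rw [h3]
  exact ContinuousLinearMap.opNorm_comp_linearIsometryEquiv _ (flL c)

theorem ref (h1 : S_TRN) (h2 : S_POO) : S_REF := by
  intro ι _ G hG f hf
  obtain ⟨P, c, hPc⟩ := h1 ι G hG
  have h3 := @h2 ι _ P (fun x => f (fl c x)) (hf.comp (contDiff_fl c))
  have e1 : VV (Up G) f = VV (@Q289.OP.OPo ι _ P 0 1) (fun x => f (fl c x)) := by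
    unfold VV
    rw [hPc, hPc]
  have e2 : EV (Up G) (fun x => ‖fderiv ℝ f x‖ ^ 2) =
      EV (@Q289.OP.OPo ι _ P 0 1) (fun x => ‖fderiv ℝ (fun x => f (fl c x)) x‖ ^ 2) := by
    rw [hPc]
    congr 1
    funext x
    rw [norm_fderiv_fl c hf]
  rw [e1, e2]
  exact h3

end Q65.BG
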